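import Mathlib

set_option autoImplicit false

namespace Pool.Agent.Results.MP_4ba699_an.Cylinder

open Filter Topology Polynomial
open scoped ContDiff

/-- Points (t, y) of R x R^k. -/
abbrev Pt (k : ℕ) : Type := ℝ × EuclideanSpace ℝ (Fin k)

/-- Partial derivative: in t for index none, in y_i for index some i. -/
noncomputable def pd {k : ℕ} (i : Option (Fin k)) (f : Pt k → ℝ) (p : Pt k) : ℝ :=
  fderiv ℝ f p (i.elim (1, 0) fun j => (0, EuclideanSpace.single j 1))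

/-- Shape operator of the graph of f: inverse first fundamental form times second fundamental
form with respect to the upward unit normal. -/
noncomputable def shape {k : ℕ} (f : Pt k → ℝ) (p : Pt k) :
    Matrix (Option (Fin k)) (Option (Fin k)) ℝ :=
  (1 + Matrix.of fun i j => pd i f p * pd j f p)⁻¹ *
    Matrix.of fun i j => pd i (pd j f) p / √(1 + ∑ l, pd l f p ^ 2)

/-- The m-th elementary symmetric function of the principal curvatures of the graph of f. -/
noncomputable def sigma {k : ℕ} (m : ℕ) (f : Pt k → ℝ) (p : Pt k) : ℝ :=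
  (shape f p).charpoly.roots.esymm m

/-- The domain 0 < t < 1, |y| < 1. -/
def Ω (k : ℕ) : Set (Pt k) := {p | 0 < p.1 ∧ p.1 < 1 ∧ ‖p.2‖ < 1}

theorem pd_eval {k : ℕ} (q : ℝ[X]) (i : Option (Fin k)) :
    pd i (fun p : Pt k => q.eval p.1) = fun p => (i.elim (derivative q) fun _ => 0).eval p.1 := by
  ext p
  have h := (q.hasDerivAt p.1).comp_hasFDerivAt p (hasFDerivAt_fst (𝕜 := ℝ))
  rw [pd, show (fun p : Pt k => q.eval p.1) = (fun x => q.eval x) ∘ Prod.fst from rfl, h.fderiv]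
  cases i <;> simp

theorem sigma_eval {k m : ℕ} (hm : 2 ≤ m) (q : ℝ[X]) (p : Pt k) :
    sigma m (fun p : Pt k => q.eval p.1) p = 0 := by
  obtain ⟨a, ha⟩ : ∃ a : Option (Fin k) → ℝ,
      shape (fun p : Pt k => q.eval p.1) p = Matrix.vecMulVec a (Pi.single none 1) := by
    refine ⟨fun i => shape (fun p : Pt k => q.eval p.1) p i none, ?_⟩
    ext i j
    cases j with
    | none => simp [Matrix.vecMulVec_apply]
    | some j =>
      simp only [shape, Matrix.mul_apply, Matrix.of_apply, pd_eval, Matrix.vecMulVec_apply]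
      rw [Finset.sum_eq_zero]
      · simp
      · intro l _
        cases l <;> simp
  have h : (X : ℝ[X]) ^ (k + 1) - (a none) • X ^ k = X ^ k * (X - C (a none)) := by
    rw [smul_eq_C_mul]
    ring
  rw [sigma, ha, Matrix.charpoly_vecMulVec, dotProduct_single_one, Fintype.card_option,
    Fintype.card_fin, Nat.add_sub_cancel, h,
    roots_mul (mul_ne_zero (pow_ne_zero _ X_ne_zero) (X_sub_C_ne_zero _)), roots_X_pow,
    roots_X_sub_C, Multiset.esymm]
  refine Multiset.sum_eq_zero fun x hx => ?_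
  obtain ⟨s, hs, rfl⟩ := Multiset.mem_map.1 hx
  obtain ⟨h1, h2⟩ := Multiset.mem_powersetCard.1 hs
  refine Multiset.prod_eq_zero ?_
  by_contra h0
  have h3 : s ≤ {a none} := by
    refine Multiset.le_iff_count.2 fun b => ?_
    rcases eq_or_ne b 0 with rfl | hb
    · rw [Multiset.count_eq_zero_of_notMem h0]
      exact Nat.zero_le _
    · simpa [hb] using Multiset.le_iff_count.1 h1 b
  have := Multiset.card_le_card h3
  rw [Multiset.card_singleton] at this
  omega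

/-- For every dimension n = k + 1 and every m at least 2 the answer is negative. -/
theorem result (k m : ℕ) (hm : 2 ≤ m) : ∃ u v : Pt k → ℝ, ContDiff ℝ ∞ u ∧ ContDiff ℝ ∞ v ∧
    (∀ p ∈ Ω k, v p ≤ u p ∧ 0 ≤ v p) ∧ (∀ y, ‖y‖ < 1 → u (0, y) = v (0, y)) ∧
    u 0 = 0 ∧ v 0 = 0 ∧ pd none u 0 = 0 ∧ (∀ p ∈ Ω k, 0 < pd none u p) ∧
    (∀ t s y, (t, y) ∈ Ω k → (s, y) ∈ Ω k → u (t, y) = v (s, y) →
      sigma m u (t, y) ≤ sigma m v (s, y)) ∧
    ContDiffOn ℝ ∞ (fun p : Pt k => if 0 ≤ p.1 then v p else u (-p.1, p.2))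
      {p | |p.1| < 1 ∧ ‖p.2‖ < 1} ∧
    ∀ U ∈ 𝓝 (0 : Pt k), (∃ p ∈ U ∩ Ω k, u p ≠ v p) ∧ ∃ p ∈ U ∩ Ω k, v p ≠ 0 := by
  have hs : ∀ q : ℝ[X], ContDiff ℝ ∞ fun p : Pt k => q.eval p.1 := fun q =>
    (by simpa using q.contDiff_aeval (𝕜 := ℝ) ∞ : ContDiff ℝ ∞ fun x => q.eval x).comp
      contDiff_fst
  refine ⟨fun p => (C 2 * X ^ 2 + X ^ 3 : ℝ[X]).eval p.1,
    fun p => (C 2 * X ^ 2 - X ^ 3 : ℝ[X]).eval p.1, hs _, hs _, fun p hp => ?_, fun y _ => by simp,
    by simp, by simp, by rw [pd_eval]; simp, fun p hp => ?_, fun t s y _ _ _ => ?_, ?_, fun U hU => ?_⟩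
  · obtain ⟨h1, h2, -⟩ := hp
    simp only [eval_add, eval_sub, eval_mul, eval_C, eval_pow, eval_X]
    constructor <;> nlinarith [pow_pos h1 2, pow_pos h1 3]
  · have h1 := hp.1
    rw [pd_eval]
    simp
    positivity
  · rw [sigma_eval hm, sigma_eval hm]
  · refine (hs (C 2 * X ^ 2 - X ^ 3)).contDiffOn.congr fun p _ => ?_
    split_ifs <;> simp
    ring
  · have h1 : Tendsto (fun t : ℝ => ((t, 0) : Pt k)) (𝓝[>] 0) (𝓝 0) :=
      ((Continuous.prodMk_left _).tendsto 0).mono_left nhdsWithin_le_nhds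
    obtain ⟨t, h2, h3⟩ := ((h1.eventually hU).and (Ioo_mem_nhdsGT one_pos)).exists
    have h4 : ((t, 0) : Pt k) ∈ U ∩ Ω k := ⟨h2, h3.1, h3.2, by simp⟩
    refine ⟨⟨_, h4, ?_⟩, _, h4, ?_⟩ <;>
      simp only [eval_add, eval_sub, eval_mul, eval_C, eval_pow, eval_X] <;>
      intro h5 <;> nlinarith [pow_pos h3.1 2, pow_pos h3.1 3, h3.2]

end Pool.Agent.Results.MP_4ba699_an.Cylinder
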